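import Pool.Agent.Helper69.ET.Tail
import Pool.Agent.Helper66.T4.Nj
import Pool.Agent.Helper27.T4.Sch

/-!
# T4': P2 and P3 with the sizes put in
-/

namespace Pool.Agent.Helper69.ET

open Finset Pool.Agent.Helper5.ET Pool.Agent.Helper1.ET4 Pool.Agent.Helper27.T4
open Pool.Agent.Helper66.T4 (Nj_le_pow Nj_ge_pow Nj_mono Nj_dvd)

/-! ## sizes -/

theorem le_exp14 : (1000037 : ℝ) ≤ Real.exp 14 := by
  have h := Real.exp_one_gt_d9
  have h1 : Real.exp 14 = Real.exp 1 ^ 14 := by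
    rw [← Real.exp_nat_mul]
    norm_num
  rw [h1]
  have h2 : (2.7 : ℝ) ^ 14 ≤ Real.exp 1 ^ 14 := pow_le_pow_left₀ (by norm_num) (by linarith) 14
  refine le_trans ?_ h2
  norm_num

theorem exp13_le : Real.exp 13 ≤ 1000003 := by
  have h := Real.exp_one_lt_d9
  have h1 : Real.exp 13 = Real.exp 1 ^ 13 := by
    rw [← Real.exp_nat_mul]
    norm_num
  rw [h1]
  have h2 : Real.exp 1 ^ 13 ≤ (2.72 : ℝ) ^ 13 :=
    pow_le_pow_left₀ (Real.exp_pos 1).le (by linarith) 13
  refine h2.trans ?_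
  norm_num

theorem NjR_pos (y : ℕ) : (0 : ℝ) < Nj y := by
  exact_mod_cast Pool.Agent.Helper66.T4.Nj_pos y

theorem Nj_le_exp {y z : ℕ} (h : y ≤ z) :
    (Nj z : ℝ) ≤ Real.exp (14 * ((z : ℝ) - y)) * Nj y := by
  have h1 : (Nj z : ℝ) ≤ 1000037 ^ (z - y) * Nj y := by exact_mod_cast Nj_le_pow h
  refine h1.trans (mul_le_mul_of_nonneg_right ?_ (NjR_pos y).le)
  calc (1000037 : ℝ) ^ (z - y) ≤ Real.exp 14 ^ (z - y) :=
        pow_le_pow_left₀ (by norm_num) le_exp14 _
    _ = Real.exp (14 * ((z : ℝ) - y)) := by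
        rw [← Real.exp_nat_mul, Nat.cast_sub h]
        ring_nf

theorem Nj_ge_exp {y z : ℕ} (h : y ≤ z) :
    Real.exp (13 * ((z : ℝ) - y)) * Nj y ≤ (Nj z : ℝ) := by
  have h1 : (1000003 : ℝ) ^ (z - y) * Nj y ≤ Nj z := by exact_mod_cast Nj_ge_pow h
  refine le_trans (mul_le_mul_of_nonneg_right ?_ (NjR_pos y).le) h1
  calc Real.exp (13 * ((z : ℝ) - y)) = Real.exp 13 ^ (z - y) := by
        rw [← Real.exp_nat_mul, Nat.cast_sub h]
        ring_nf
    _ ≤ (1000003 : ℝ) ^ (z - y) := pow_le_pow_left₀ (Real.exp_pos _).le exp13_le _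

theorem sl_le_sk (s : ℕ) : sl s ≤ sk s := (sl_lt_se s).le.trans (se_lt_sk s).le

theorem vlo_cast (s : ℕ) : (vlo s : ℝ) = (Nj (sk s) : ℝ) / Nj (sl s) := by
  unfold vlo
  rw [Nat.cast_div (Nj_dvd (sl_le_sk s)) (NjR_pos _).ne']

theorem vlo_pos (s : ℕ) : 0 < vlo s :=
  Nat.div_pos (Nj_mono (sl_le_sk s)) (Pool.Agent.Helper66.T4.Nj_pos _)

theorem vhi_le_div (s : ℕ) : (vhi s : ℝ) ≤ (Nj (sk (s + 1)) : ℝ) / Nj (sl s) := by
  unfold vhi
  calc (((Nj (sk (s + 1)) - Nj (se s)) / Nj (sl s) : ℕ) : ℝ)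
      ≤ ((Nj (sk (s + 1)) - Nj (se s) : ℕ) : ℝ) / (Nj (sl s) : ℕ) := Nat.cast_div_le
    _ ≤ (Nj (sk (s + 1)) : ℝ) / Nj (sl s) := by
        apply div_le_div_of_nonneg_right _ (NjR_pos _).le
        exact_mod_cast Nat.sub_le _ _

theorem sg_ge7 (s : ℕ) : (10 : ℝ) ^ 7 ≤ sg s := by
  have h := Pool.Agent.Helper27.T4.sg_ge s
  have h1 : ((2 ^ 41 : ℕ) : ℝ) ≤ sg s := by exact_mod_cast h
  refine le_trans ?_ h1
  norm_num

theorem sl_le_sg (s : ℕ) : (sl s : ℝ) ≤ (2 * sg s + 1) ^ 2 := by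
  have h1 := gap_ge_sqrt (sl s) (tau_ge _)
  have h2 : sl s < (Nat.sqrt (sl s) + 1) * (Nat.sqrt (sl s) + 1) := Nat.lt_succ_sqrt (sl s)
  have h3 : (sl s : ℝ) ≤ ((Nat.sqrt (sl s) : ℝ) + 1) * ((Nat.sqrt (sl s) : ℝ) + 1) := by
    exact_mod_cast h2.le
  have h4 : (Nat.sqrt (sl s) : ℝ) ≤ 2 * sg s := by exact_mod_cast h1
  have h5 : (0 : ℝ) ≤ Nat.sqrt (sl s) := Nat.cast_nonneg _
  nlinarith

theorem big_exp (g : ℝ) (hg : (10 : ℝ) ^ 7 ≤ g) :
    (2 * g + 1) ^ 2 + 168 * g + 1 ≤ Real.exp (g / 50) / 2 := by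
  have h0 : (0 : ℝ) ≤ g / 50 := by
    have : (0 : ℝ) ≤ 10 ^ 7 := by positivity
    linarith
  have h1 : (g / 50) ^ 3 / (Nat.factorial 3 : ℝ) ≤ Real.exp (g / 50) :=
    Real.pow_div_factorial_le_exp (g / 50) h0 3
  have h2 : ((Nat.factorial 3 : ℕ) : ℝ) = 6 := by norm_num [Nat.factorial]
  rw [h2] at h1
  have h3 : (2 * g + 1) ^ 2 + 168 * g + 1 ≤ (g / 50) ^ 3 / 6 / 2 := by
    have h4 : g ^ 2 * 10 ^ 7 ≤ g ^ 2 * g := mul_le_mul_of_nonneg_left hg (sq_nonneg g)
    have h5 : g * 10 ^ 7 ≤ g * g := mul_le_mul_of_nonneg_left hg (by linarith)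
    nlinarith
  linarith

/-- the modulus `N_e / N_l` of a state -/
def QQ (s : ℕ) : ℕ := Nj (se s) / Nj (sl s)

theorem QQ_pos (s : ℕ) : 0 < QQ s :=
  Nat.div_pos (Nj_mono (sl_lt_se s).le) (Pool.Agent.Helper66.T4.Nj_pos _)

theorem QQ_le (s : ℕ) : (QQ s : ℝ) ≤ Real.exp (56 * sg s) := by
  unfold QQ
  rw [Nat.cast_div (Nj_dvd (sl_lt_se s).le) (NjR_pos _).ne', div_le_iff₀ (NjR_pos _)]
  refine (Nj_le_exp (sl_lt_se s).le).trans (mul_le_mul_of_nonneg_right ?_ (NjR_pos _).le)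
  apply Real.exp_le_exp.mpr
  have h1 : se s ≤ sl s + 4 * sg s := by
    have h2 := se_lt_sk s
    have h3 := sk_succ_le s
    have h4 := sk_add_le_succ s
    omega
  have h5 : (se s : ℝ) ≤ sl s + 4 * sg s := by exact_mod_cast h1
  linarith

/-! ## P2 -/

/-- the bound of P2 -/
noncomputable def WB (s I : ℕ) : ℝ :=
  Real.exp ((sg s : ℝ) / 50) * (1 + (I : ℝ) / QQ s +
    I * (2 / Real.sqrt (vlo s) + 4 * Real.sqrt (vhi s) / QQ s))

theorem p2_bound (V : Finset ℕ) (Q α E I D : ℕ) (hQ : 0 < Q) (X μ : ℝ) (hμ : 0 ≤ μ) (hX : 0 ≤ X)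
    (hE : ∀ i j, i < I → j < I → (α + E * i) % Q = (α + E * j) % Q → i % D = j % D)
    (hD : D = Q ∨ I ≤ D) (hD0 : 0 < D)
    (h : ((V.filter (fun v => ∃ i < I, v % Q = (α + E * i) % Q)).card : ℝ) ≤
      X * (1 + (min I Q : ℕ) * μ)) :
    (((range I ×ˢ V).filter (fun p => p.2 % Q = (α + E * p.1) % Q)).card : ℝ) ≤
      2 * X * (1 + (I : ℝ) / Q + I * μ) := by
  have hQR : (0 : ℝ) < Q := by exact_mod_cast hQ
  have hI0 : (0 : ℝ) ≤ I := Nat.cast_nonneg I
  have hmin : ((min I Q : ℕ) : ℝ) ≤ I := by exact_mod_cast min_le_left I Q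
  have h1 := card_pairs_le V Q α E I D hE
  set c := (V.filter (fun v => ∃ i < I, v % Q = (α + E * i) % Q)).card with hc
  have h1R : (((range I ×ˢ V).filter (fun p => p.2 % Q = (α + E * p.1) % Q)).card : ℝ) ≤
      ((I / D : ℕ) + 1) * (c : ℝ) := by exact_mod_cast h1
  rcases Nat.lt_or_ge D I with hlt | hge
  · -- then `D = Q`
    have hDQ : D = Q := by
      rcases hD with h | h
      · exact h
      · omega
    subst hDQ
    have hm : min I D = D := min_eq_right hlt.le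
    rw [hm] at h
    have h2 : ((I / D : ℕ) : ℝ) ≤ (I : ℝ) / D := Nat.cast_div_le
    have h3 : (1 : ℝ) ≤ (I : ℝ) / D := by
      rw [le_div_iff₀ hQR, one_mul]
      exact_mod_cast hlt.le
    refine h1R.trans ?_
    calc (((I / D : ℕ) : ℝ) + 1) * (c : ℝ) ≤ ((I : ℝ) / D + 1) * (X * (1 + D * μ)) := by
          apply mul_le_mul (by linarith) h (Nat.cast_nonneg _) (by positivity)
      _ ≤ (2 * ((I : ℝ) / D)) * (X * (1 + D * μ)) := by
          apply mul_le_mul_of_nonneg_right (by linarith) (by positivity)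
      _ = 2 * X * ((I : ℝ) / D + I * μ) := by
          field_simp
      _ ≤ 2 * X * (1 + (I : ℝ) / D + I * μ) := by
          apply mul_le_mul_of_nonneg_left (by linarith) (by positivity)
  · have h2 : I / D ≤ 1 := by
      rw [Nat.div_le_iff_le_mul_add_pred hD0]
      omega
    have h2R : ((I / D : ℕ) : ℝ) ≤ 1 := by exact_mod_cast h2
    refine h1R.trans ?_
    calc (((I / D : ℕ) : ℝ) + 1) * (c : ℝ) ≤ 2 * (X * (1 + (min I Q : ℕ) * μ)) := by
          apply mul_le_mul (by linarith) h (Nat.cast_nonneg _) (by norm_num)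
      _ ≤ 2 * (X * (1 + (I : ℝ) / Q + I * μ)) := by
          apply mul_le_mul_of_nonneg_left _ (by norm_num)
          have h4 := mul_le_mul_of_nonneg_right hmin hμ
          have h5 : 0 ≤ (I : ℝ) / Q := by positivity
          rw [show X * (1 + (I : ℝ) / Q + I * μ) = X * (1 + ((I : ℝ) / Q + I * μ)) by ring]
          apply mul_le_mul_of_nonneg_left _ hX
          linarith
      _ = 2 * X * (1 + (I : ℝ) / Q + I * μ) := by ring

/-- P2 with the sizes: pairs `(i, v)` with `v = α + E i` modulo `N_e / N_l` -/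
theorem p2_all (K : Finset Key) (s : ℕ) (hK : keysOf s ⊆ K) :
    PrLe K (fun w => ∃ α E I D : ℕ, 0 < D ∧ (D = QQ s ∨ I ≤ D) ∧
      (∀ i j, i < I → j < I → (α + E * i) % QQ s = (α + E * j) % QQ s → i % D = j % D) ∧
      WB s I < (((range I ×ˢ VV s w).filter (fun p => p.2 % QQ s = (α + E * p.1) % QQ s)).card : ℝ))
      (Real.exp (-(sl s : ℝ))) := by
  have hg := sg_ge7 s
  have hbig := big_exp _ hg
  have hsl := sl_le_sg s
  have hg0 : (0 : ℝ) ≤ sg s := Nat.cast_nonneg _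
  have hX : Real.exp 2 ≤ Real.exp ((sg s : ℝ) / 50) / 2 := by
    have h1 : Real.exp 2 ≤ 9 := by
      have h := Real.exp_one_lt_d9
      have h2 : Real.exp 2 = Real.exp 1 ^ 2 := by
        rw [← Real.exp_nat_mul]
        norm_num
      rw [h2]
      nlinarith [Real.exp_pos 1]
    nlinarith
  have h1 := p2 K s hK (QQ s) (QQ_pos s) (vlo_pos s) (Real.exp ((sg s : ℝ) / 50) / 2) hX
  refine prLe_mono h1 ?_ ?_
  · rintro w ⟨α, E, I, D, hD0, hD, hE, hlt⟩
    refine ⟨α, E, I, ?_⟩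
    by_contra hcon
    push Not at hcon
    have h2 := p2_bound (VV s w) (QQ s) α E I D (QQ_pos s) (Real.exp ((sg s : ℝ) / 50) / 2)
      (2 / Real.sqrt (vlo s) + 4 * Real.sqrt (vhi s) / QQ s) (by positivity) (by positivity)
      hE hD hD0 hcon
    apply absurd hlt
    rw [not_lt]
    refine h2.trans (le_of_eq ?_)
    unfold WB
    ring
  · have hQ := QQ_le s
    have hQ1 : (1 : ℝ) ≤ QQ s := by exact_mod_cast QQ_pos s
    have h3 : (QQ s : ℝ) ^ 2 * (QQ s + 1) ≤ 2 * (QQ s : ℝ) ^ 3 := by nlinarith [sq_nonneg (QQ s : ℝ)]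
    have h4 : (QQ s : ℝ) ^ 3 ≤ Real.exp (168 * sg s) := by
      calc (QQ s : ℝ) ^ 3 ≤ Real.exp (56 * sg s) ^ 3 := pow_le_pow_left₀ (by linarith) hQ 3
        _ = Real.exp (168 * sg s) := by
          rw [← Real.exp_nat_mul]
          congr 1
          push_cast
          ring
    have h5 : (2 : ℝ) ≤ Real.exp 1 := by linarith [Real.exp_one_gt_d9]
    calc (QQ s : ℝ) ^ 2 * (QQ s + 1) * Real.exp (-(Real.exp ((sg s : ℝ) / 50) / 2))
        ≤ (Real.exp 1 * Real.exp (168 * sg s)) * Real.exp (-(Real.exp ((sg s : ℝ) / 50) / 2)) := by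
          apply mul_le_mul_of_nonneg_right _ (Real.exp_pos _).le
          refine h3.trans ?_
          apply mul_le_mul h5 h4 (by positivity) (Real.exp_pos _).le
      _ = Real.exp (1 + 168 * sg s - Real.exp ((sg s : ℝ) / 50) / 2) := by
          rw [← Real.exp_add, ← Real.exp_add]
          congr 1
      _ ≤ Real.exp (-(sl s : ℝ)) := by
          apply Real.exp_le_exp.mpr
          linarith

/-! ## P2 in the shape of the meso block -/

theorem cnt_mono (f : Fin 3) {y z : ℕ} (h : y ≤ z) : cnt f y ≤ cnt f z :=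
  card_le_card (filter_subset_filter _ (range_subset_range.mpr h))

theorem cnt_const (f : Fin 3) {y z : ℕ} (h : y ≤ z) (h1 : ∀ t, y ≤ t → t < z → own t ≠ f) :
    cnt f z = cnt f y := by
  induction z, h using Nat.le_induction with
  | base => rfl
  | succ z hz ih =>
    rw [Pool.Agent.Helper66.T4.cnt_succ, if_neg (h1 z hz (Nat.lt_succ_self z)), add_zero]
    exact ih fun t ht ht' => h1 t ht (by omega)

theorem cnt_full (f : Fin 3) {y z : ℕ} (h : y ≤ z) (h1 : ∀ t, y ≤ t → t < z → own t = f) :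
    cnt f z = cnt f y + (z - y) := by
  induction z, h using Nat.le_induction with
  | base => simp
  | succ z hz ih =>
    rw [Pool.Agent.Helper66.T4.cnt_succ, if_pos (h1 z hz (Nat.lt_succ_self z)),
      ih fun t ht ht' => h1 t ht (by omega)]
    omega

theorem own_eq_of_era {y z : ℕ} (h : era y % 3 = era z % 3) : own y = own z := by
  unfold own
  exact Fin.ext h

theorem own_ne_of_era {y z : ℕ} (h : era y % 3 ≠ era z % 3) : own y ≠ own z := by
  unfold own
  intro h1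
  exact h (congrArg Fin.val h1)

/-- the power of the growing prime divides the modulus -/
theorem pow_dvd_QQ (s : ℕ) (G : Fin 3) :
    pr G ^ (cnt G (se s) - cnt G (sl s)) ∣ QQ s := by
  unfold QQ
  have h1 : Nj (sl s) * pr G ^ (cnt G (se s) - cnt G (sl s)) ∣ Nj (se s) := by
    unfold Nj NN av
    rw [← mul_prod_erase univ (fun f => pr f ^ cnt f (sl s)) (mem_univ G),
      ← mul_prod_erase univ (fun f => pr f ^ cnt f (se s)) (mem_univ G)]
    have h2 : pr G ^ cnt G (sl s) * (∏ f ∈ univ.erase G, pr f ^ cnt f (sl s)) *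
        pr G ^ (cnt G (se s) - cnt G (sl s)) =
        pr G ^ cnt G (se s) * ∏ f ∈ univ.erase G, pr f ^ cnt f (sl s) := by
      have h3 : pr G ^ cnt G (se s) =
          pr G ^ cnt G (sl s) * pr G ^ (cnt G (se s) - cnt G (sl s)) := by
        rw [← pow_add]
        congr 1
        have := cnt_mono G (sl_lt_se s).le
        omega
      rw [h3]
      ring
    rw [h2]
    exact mul_dvd_mul_left _ (prod_dvd_prod_of_dvd _ _ fun f _ =>
      pow_dvd_pow _ (cnt_mono f (sl_lt_se s).le))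
  exact (Nat.dvd_div_iff_mul_dvd (Nj_dvd (sl_lt_se s).le)).mpr h1

/-- no border inside: the modulus is a power of the growing prime -/
theorem QQ_eq_pow (s : ℕ) (G : Fin 3)
    (h : ∀ t, sl s ≤ t → t < se s → own t = G) :
    QQ s = pr G ^ (cnt G (se s) - cnt G (sl s)) := by
  unfold QQ
  apply Nat.div_eq_of_eq_mul_left (Pool.Agent.Helper66.T4.Nj_pos _)
  unfold Nj NN av
  rw [← mul_prod_erase univ (fun f => pr f ^ cnt f (sl s)) (mem_univ G),
    ← mul_prod_erase univ (fun f => pr f ^ cnt f (se s)) (mem_univ G)]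
  have h2 : ∏ f ∈ univ.erase G, pr f ^ cnt f (se s) =
      ∏ f ∈ univ.erase G, pr f ^ cnt f (sl s) := by
    apply prod_congr rfl
    intro f hf
    rw [cnt_const f (sl_lt_se s).le]
    intro t ht ht'
    rw [h t ht ht']
    exact (ne_of_mem_erase hf).symm
  rw [h2, ← mul_assoc, ← pow_add]
  congr 2
  have := cnt_mono G (sl_lt_se s).le
  omega

/-- P2 for a step prime to the growing prime -/
theorem p2_own (K : Finset Key) (s : ℕ) (hK : keysOf s ⊆ K) :
    PrLe K (fun w => ∃ (G : Fin 3) (α E I : ℕ), E.Coprime (pr G) ∧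
      (QQ s = pr G ^ (cnt G (se s) - cnt G (sl s)) ∨
        I ≤ pr G ^ (cnt G (se s) - cnt G (sl s))) ∧
      WB s I < (((range I ×ˢ VV s w).filter
        (fun p => p.2 ≡ α + E * p.1 [MOD QQ s])).card : ℝ))
      (Real.exp (-(sl s : ℝ))) := by
  refine prLe_mono (p2_all K s hK) ?_ le_rfl
  rintro w ⟨G, α, E, I, hE, hD, hlt⟩
  refine ⟨α, E, I, pr G ^ (cnt G (se s) - cnt G (sl s)), pow_pos (pr_prime G).pos _, ?_, ?_, ?_⟩
  · rcases hD with h | h
    · exact Or.inl h.symm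
    · exact Or.inr h
  · intro i j _ _ hij
    have h1 : α + E * i ≡ α + E * j [MOD pr G ^ (cnt G (se s) - cnt G (sl s))] :=
      Nat.ModEq.of_dvd (pow_dvd_QQ s G) hij
    have h2 : E * i ≡ E * j [MOD pr G ^ (cnt G (se s) - cnt G (sl s))] :=
      Nat.ModEq.add_left_cancel' α h1
    exact Nat.ModEq.cancel_left_of_coprime
      (Nat.Coprime.pow_left _ hE.symm) h2
  · exact hlt

/-- the number of values of the product parameter of the growing family -/
def II (s s' : ℕ) : ℕ :=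
  pr (own (sl s')) ^ ((cnt (own (sl s')) (sl s) - cnt (own (sl s')) (sl s')) / 2)

theorem own_near (y z : ℕ) (hy : bb 0 ≤ y) (h1 : y ≤ z) (h2 : z < bb (era y + 1)) :
    own z = own y := by
  apply own_eq_of_era
  rw [era_eq z (era y) (le_trans (era_spec y hy).1 h1) h2]

theorem own_next (y z : ℕ) (hy : bb 0 ≤ y) (h1 : bb (era y + 1) ≤ z) (h2 : z ≤ 2 * y) :
    own z ≠ own y := by
  have hz : bb 0 ≤ z := le_trans (bb_strictMono.monotone (Nat.zero_le _)) h1
  apply own_ne_of_era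
  have h3 : era y + 1 ≤ era z := by
    have := era_mono h1
    rwa [era_bb] at this
  have h4 : era z < era y + 3 := by
    by_contra hcon
    push Not at hcon
    have h5 : bb (era y + 3) ≤ bb (era z) := bb_strictMono.monotone hcon
    have h6 := (era_spec z hz).1
    have h7 := (bb_step (era y + 1)).1
    have h8 := (bb_step (era y + 2)).1
    have h9 := (era_spec y hy).2
    have e1 : era y + 1 + 1 = era y + 2 := by ring
    have e2 : era y + 2 + 1 = era y + 3 := by ring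
    rw [e1] at h7
    rw [e2] at h8
    omega
  omega

theorem w_alt (s s' : ℕ) (hl : sl s ≤ 2 * sl s') :
    QQ s' = pr (own (sl s')) ^ (cnt (own (sl s')) (se s') - cnt (own (sl s')) (sl s')) ∨
      II s s' ≤ pr (own (sl s')) ^ (cnt (own (sl s')) (se s') - cnt (own (sl s')) (sl s')) := by
  set G := own (sl s') with hG
  rcases Nat.lt_or_ge (bb (era (sl s') + 1)) (se s') with hb | hb
  · right
    unfold II
    rw [← hG]
    apply Nat.pow_le_pow_right (pr_prime G).pos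
    have hlb : sl s' ≤ bb (era (sl s') + 1) := (era_spec (sl s') (tau_ge _)).2.le
    have h1 : cnt G (bb (era (sl s') + 1)) ≤ cnt G (se s') := cnt_mono G hb.le
    have h2 : cnt G (sl s) ≤ cnt G (bb (era (sl s') + 1)) := by
      rcases le_total (sl s) (bb (era (sl s') + 1)) with h | h
      · exact cnt_mono G h
      · rw [cnt_const G h]
        intro t ht ht'
        exact own_next (sl s') t (tau_ge _) ht (by omega)
    omega
  · left
    apply QQ_eq_pow
    intro t ht ht'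
    exact own_near (sl s') t (tau_ge _) ht (by omega)

theorem fail_le (s s' : ℕ) (hl : sl s ≤ 2 * sl s') :
    Real.exp (-(sl s' : ℝ)) ≤ Real.exp (-(Real.sqrt (sl s))) / 8 := by
  have h1 : (16 : ℝ) ≤ sl s' := by
    have := sl_ge s'
    have h2 : (16 : ℕ) ≤ sl s' := le_trans (by norm_num) this
    exact_mod_cast h2
  have h2 : (sl s : ℝ) ≤ 2 * sl s' := by exact_mod_cast hl
  have h3 : Real.sqrt (sl s) ≤ sl s' - 3 := by
    apply Real.sqrt_le_iff.mpr
    constructor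
    · linarith
    · nlinarith
  have h4 : (8 : ℝ) ≤ Real.exp 3 := by
    have h := Real.exp_one_gt_d9
    have h5 : Real.exp 3 = Real.exp 1 ^ 3 := by
      rw [← Real.exp_nat_mul]
      norm_num
    rw [h5]
    have h6 : (2 : ℝ) ^ 3 ≤ Real.exp 1 ^ 3 := pow_le_pow_left₀ (by norm_num) (by linarith) 3
    linarith
  have h7 : Real.exp (-(sl s' : ℝ)) * 8 ≤ Real.exp (-(Real.sqrt (sl s))) := by
    calc Real.exp (-(sl s' : ℝ)) * 8 ≤ Real.exp (-(sl s' : ℝ)) * Real.exp 3 :=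
          mul_le_mul_of_nonneg_left h4 (Real.exp_pos _).le
      _ = Real.exp (-(sl s' : ℝ) + 3) := by rw [Real.exp_add]
      _ ≤ Real.exp (-(Real.sqrt (sl s))) := by
          apply Real.exp_le_exp.mpr
          linarith
  linarith

/-- P2 in the shape of the meso block, with the failure probability of the larger state -/
theorem w_meso' (K : Finset Key) (s s' : ℕ) (hK' : keysOf s' ⊆ K)
    (hl : sl s ≤ 2 * sl s') :
    PrLe K (fun w => ∃ α E : ℕ, E.Coprime (pr (own (sl s'))) ∧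
      WB s' (II s s') < (((range (II s s') ×ˢ VV s' w).filter
        (fun p => p.2 ≡ α + E * p.1 [MOD QQ s'])).card : ℝ))
      (Real.exp (-(Real.sqrt (sl s))) / 8) := by
  refine prLe_mono (p2_own K s' hK') ?_ (fail_le s s' hl)
  rintro w ⟨α, E, hE, hlt⟩
  exact ⟨own (sl s'), α, E, II s s', hE, w_alt s s' hl, hlt⟩

/-- P2 in the shape of the meso block -/
theorem w_meso (K : Finset Key) (s s' : ℕ) (hK' : keysOf s' ⊆ K)
    (hl : sl s ≤ 2 * sl s') :
    PrLe K (fun w => ∃ α E : ℕ, E.Coprime (pr (own (sl s'))) ∧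
      WB s' (II s s') < (((range (II s s') ×ˢ VV s' w).filter
        (fun p => p.2 ≡ α + E * p.1 [MOD QQ s'])).card : ℝ))
      (Real.exp (-(sl s' : ℝ))) := by
  refine prLe_mono (p2_own K s' hK') ?_ le_rfl
  rintro w ⟨α, E, hE, hlt⟩
  exact ⟨own (sl s'), α, E, II s s', hE, w_alt s s' hl, hlt⟩

end Pool.Agent.Helper69.ET
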