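import Pool.Agent.Helper69.ET.Far
import Pool.Agent.Helper3.M.Defs

/-!
# T4', block M, part (F): the random windows have the properties (P1), (P2), (P3)
-/

namespace Pool.Agent.Helper69.ET

open Finset Pool.Agent.Helper5.ET Pool.Agent.Helper1.ET4 Pool.Agent.Helper27.T4
open Pool.Agent.Helper3.M (Meso Win LL)

/-- bound for `B2` -/
noncomputable def B2r (s s' : ℕ) (f1 : Fin 3) : ℝ :=
  Real.exp (sg s' / 50) * (1 + Pool.Agent.Helper3.M.II s s' f1 *
    (4 * Real.sqrt (vhi s') / Pool.Agent.Helper3.M.QQ s' + 4 / Real.sqrt (vlo s')) +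
    Pool.Agent.Helper3.M.II s s' f1 / Pool.Agent.Helper3.M.QQ s')

/-- bound for `B1` -/
noncomputable def B1r (s s' : ℕ) : ℝ := (LL s s' : ℝ) / 2 ^ lev (vlo s) + 2

theorem WB_le (s s' : ℕ) (f1 : Fin 3) :
    WB s' (Pool.Agent.Helper3.M.II s s' f1) ≤ B2r s s' f1 := by
  unfold WB B2r
  apply mul_le_mul_of_nonneg_left _ (Real.exp_pos _).le
  have h1 : (QQ s' : ℝ) = Pool.Agent.Helper3.M.QQ s' := rfl
  rw [h1]
  have h2 : (2 : ℝ) / Real.sqrt (vlo s') ≤ 4 / Real.sqrt (vlo s') :=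
    div_le_div_of_nonneg_right (by norm_num) (Real.sqrt_nonneg _)
  have h3 : (0 : ℝ) ≤ Pool.Agent.Helper3.M.II s s' f1 := Nat.cast_nonneg _
  nlinarith [mul_le_mul_of_nonneg_left h2 h3]

/-- the random windows -/
theorem win_VV : ∃ (R s0 : ℕ), ∀ s s' b f1 f0, s0 ≤ s' → Meso s s' b f1 f0 →
    sl s ≤ 2 * sl s' → ∀ K : Finset Key, keysOf s ⊆ K → keysOf s' ⊆ K →
      PrLe K (fun w => ¬ ∃ B1 B2 : ℕ, (B1 : ℝ) ≤ B1r s s' ∧ (B2 : ℝ) ≤ B2r s s' f1 ∧
        Win s s' f1 (VV s w) (VV s' w) B1 B2 R) (Real.exp (-(Real.sqrt (sl s))) / 2) := by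
  refine ⟨30, 0, fun s s' b f1 f0 _ hM hl K hK hK' => ?_⟩
  have hf1 : own (sl s') = f1 := hM.own1 _ le_rfl hM.lb
  have h2 := w_meso' K s s' hK' hl
  have h3 := p3_all K s s' hM.hss hK hK'
  rw [hf1] at h2
  refine prLe_mono (prLe_or h2 h3) ?_ ?_
  · intro w hw
    by_contra hcon
    rw [not_or] at hcon
    obtain ⟨hc2, hc3⟩ := hcon
    push Not at hc2 hc3
    apply hw
    have hB2r : 0 ≤ B2r s s' f1 := by
      unfold B2r
      positivity
    have hII : II s s' = Pool.Agent.Helper3.M.II s s' f1 := by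
      unfold II Pool.Agent.Helper3.M.II
      rw [hf1]
    refine ⟨LL s s' / 2 ^ lev (vlo s) + 2, ⌊B2r s s' f1⌋₊, ?_, Nat.floor_le hB2r, ?_⟩
    · unfold B1r
      push_cast
      have h4 : ((LL s s' / 2 ^ lev (vlo s) : ℕ) : ℝ) ≤
          (LL s s' : ℝ) / ((2 ^ lev (vlo s) : ℕ) : ℝ) := Nat.cast_div_le
      push_cast at h4
      linarith
    · refine ⟨filter_subset _ _, filter_subset _ _, fun a => card_VV_window s w a _, ?_, ?_⟩
      · intro α E hE
        apply Nat.le_floor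
        refine le_trans ?_ (WB_le s s' f1)
        rw [← hII]
        exact hc2 α E hE
      · intro M
        exact (hc3 M).le
  · have h5 := Real.exp_pos (-(Real.sqrt (sl s)))
    linarith

end Pool.Agent.Helper69.ET
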