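import Pool.Agent.Helper69.ET.Prop

/-!
# T4': P3 with the sizes put in
-/

namespace Pool.Agent.Helper69.ET

open Finset Pool.Agent.Helper5.ET Pool.Agent.Helper1.ET4 Pool.Agent.Helper27.T4
open Pool.Agent.Helper66.T4 (Nj_le_pow Nj_ge_pow Nj_mono Nj_dvd)

/-- the factor between the two states -/
def qq (s s' : ℕ) : ℕ := Nj (sl s) / Nj (sl s')

theorem qq_pos {s s' : ℕ} (h : sl s' ≤ sl s) : 0 < qq s s' :=
  Nat.div_pos (Nj_mono h) (Pool.Agent.Helper66.T4.Nj_pos _)

theorem qq_cast {s s' : ℕ} (h : sl s' ≤ sl s) :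
    (qq s s' : ℝ) = (Nj (sl s) : ℝ) / Nj (sl s') := by
  unfold qq
  rw [Nat.cast_div (Nj_dvd h) (NjR_pos _).ne']

/-- a large gap between the states: the pair is unique -/
theorem p3_unique (s s' : ℕ) (V V' : Finset ℕ) (hV' : ∀ v ∈ V', v < vhi s')
    (hq : vhi s' ≤ qq s s') (M : ℕ) :
    ((V ×ˢ V').filter (fun p => qq s s' * p.1 + p.2 = M)).card ≤ 1 := by
  rw [card_le_one]
  intro p hp p' hp'
  rw [mem_filter, mem_product] at hp hp'
  have h1 := hV' _ hp.1.2
  have h2 := hV' _ hp'.1.2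
  have hq0 : 0 < qq s s' := by omega
  have h3 : p.2 = p'.2 := by
    have e1 : (qq s s' * p.1 + p.2) % qq s s' = p.2 := by
      rw [Nat.mul_add_mod, Nat.mod_eq_of_lt (by omega)]
    have e2 : (qq s s' * p'.1 + p'.2) % qq s s' = p'.2 := by
      rw [Nat.mul_add_mod, Nat.mod_eq_of_lt (by omega)]
    rw [← e1, ← e2, hp.2, hp'.2]
  have h4 : qq s s' * p.1 = qq s s' * p'.1 := by
    have := hp.2
    have := hp'.2
    omega
  exact Prod.ext (Nat.eq_of_mul_eq_mul_left hq0 h4) h3

theorem vhi_le_qq (s s' : ℕ) (h : sl s' + 4 * sg s' ≤ sl s) : vhi s' ≤ qq s s' := by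
  unfold vhi qq
  apply Nat.div_le_div_right
  refine (Nat.sub_le _ _).trans (Nj_mono ?_)
  exact (sk_succ_le s').trans h

theorem sg_le_two (s s' : ℕ) (h : sl s < sl s' + 4 * sg s') : sg s ≤ 2 * sg s' := by
  have h1 := sg_small s'
  have h2 := (era_spec (sl s') (tau_ge _)).2
  have h3 : era (sl s) ≤ era (sl s') + 1 := by
    have h4 : sl s < bb (era (sl s') + 2) := by
      have h5 := (bb_step (era (sl s') + 1)).1
      have e1 : era (sl s') + 1 + 1 = era (sl s') + 2 := by ring
      rw [e1] at h5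
      omega
    have h6 := era_mono h4.le
    rw [era_bb] at h6
    have h7 : era (sl s) < era (sl s') + 2 := by
      have h8 := (era_spec (sl s) (tau_ge _)).1
      exact bb_strictMono.lt_iff_lt.mp (lt_of_le_of_lt h8 h4)
    omega
  unfold sg gap
  exact (wof_mono (bb_strictMono.monotone h3)).trans (wof_bb_double _)

/-- the mean number of pairs -/
theorem p3_mean (s s' : ℕ) (hss : s' + 2 ≤ s) :
    2 / Real.sqrt (vlo s) * (2 / Real.sqrt (vlo s') + 4 * Real.sqrt (vhi s') / qq s s') ≤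
      12 * Real.exp (-(13 / 2 * (sg s' : ℝ))) := by
  have hl : sl s' ≤ sl s := sl_mono (by omega)
  have hgm : sg s' ≤ sg s := sg_mono (by omega)
  have hgR : (sg s' : ℝ) ≤ sg s := by exact_mod_cast hgm
  have hN := NjR_pos
  -- the lower ends of the windows
  have hlow : ∀ t, Real.exp (13 * (sg t : ℝ)) ≤ vlo t := by
    intro t
    rw [vlo_cast, le_div_iff₀ (hN _)]
    refine le_trans (mul_le_mul_of_nonneg_right ?_ (hN _).le) (Nj_ge_exp (sl_le_sk t))
    apply Real.exp_le_exp.mpr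
    have h1 : sl t + sg t ≤ sk t := (sl_add_le_se t).trans (se_lt_sk t).le
    have h2 : (sl t : ℝ) + sg t ≤ sk t := by exact_mod_cast h1
    linarith
  have hsq : ∀ t, Real.exp (13 / 2 * (sg t : ℝ)) ≤ Real.sqrt (vlo t) := by
    intro t
    apply Real.le_sqrt_of_sq_le
    rw [← Real.exp_nat_mul]
    refine le_trans (le_of_eq ?_) (hlow t)
    congr 1
    push_cast
    ring
  have hinv : ∀ t, 2 / Real.sqrt (vlo t) ≤ 2 * Real.exp (-(13 / 2 * (sg t : ℝ))) := by
    intro t
    rw [Real.exp_neg, ← div_eq_mul_inv]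
    exact div_le_div_of_nonneg_left (by norm_num) (Real.exp_pos _) (hsq t)
  -- first term
  have h1 : 2 / Real.sqrt (vlo s) * (2 / Real.sqrt (vlo s')) ≤
      4 * Real.exp (-(13 / 2 * (sg s' : ℝ))) := by
    have h2 : 2 / Real.sqrt (vlo s) ≤ 2 := by
      refine (hinv s).trans ?_
      have h3 : Real.exp (-(13 / 2 * (sg s : ℝ))) ≤ 1 := by
        apply Real.exp_le_one_iff.mpr
        have : (0 : ℝ) ≤ sg s := Nat.cast_nonneg _
        linarith
      linarith
    calc 2 / Real.sqrt (vlo s) * (2 / Real.sqrt (vlo s'))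
        ≤ 2 * (2 * Real.exp (-(13 / 2 * (sg s' : ℝ)))) :=
          mul_le_mul h2 (hinv s') (by positivity) (by norm_num)
      _ = 4 * Real.exp (-(13 / 2 * (sg s' : ℝ))) := by ring
  -- second term
  have h2 : 2 / Real.sqrt (vlo s) * (4 * Real.sqrt (vhi s') / qq s s') ≤
      8 * Real.exp (-(13 / 2 * (sg s' : ℝ))) := by
    have hs1 : (0 : ℝ) < Real.sqrt (vlo s) :=
      Real.sqrt_pos.mpr (by exact_mod_cast vlo_pos s)
    have hqR : (0 : ℝ) < qq s s' := by exact_mod_cast qq_pos hl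
    rw [div_mul_div_comm, div_le_iff₀ (mul_pos hs1 hqR)]
    have h3 : Real.sqrt (vhi s') ≤
        Real.exp (-(13 / 2 * (sg s' : ℝ))) * (Real.sqrt (vlo s) * qq s s') := by
      apply Real.sqrt_le_iff.mpr
      refine ⟨by positivity, ?_⟩
      rw [mul_pow, mul_pow, Real.sq_sqrt (Nat.cast_nonneg _)]
      have h4 : Real.exp (-(13 / 2 * (sg s' : ℝ))) ^ 2 = Real.exp (-(13 * (sg s' : ℝ))) := by
        rw [← Real.exp_nat_mul]
        congr 1
        push_cast
        ring
      rw [h4, vlo_cast, qq_cast hl]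
      refine (vhi_le_div s').trans ?_
      have h5 : sk (s' + 1) ≤ sk s := sk_strictMono.monotone (by omega)
      have h6 : (Nj (sk (s' + 1)) : ℝ) ≤ Nj (sk s) := by exact_mod_cast Nj_mono h5
      have h7 : Real.exp (13 * (sg s' : ℝ)) * Nj (sl s') ≤ Nj (sl s) := by
        refine le_trans (mul_le_mul_of_nonneg_right ?_ (hN _).le) (Nj_ge_exp hl)
        apply Real.exp_le_exp.mpr
        have h8 : (sl s' : ℝ) + sg s' ≤ sl s := by exact_mod_cast sl_add_le hss
        linarith
      have h9 : Real.exp (-(13 * (sg s' : ℝ))) * ((Nj (sk s) : ℝ) / Nj (sl s) *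
          ((Nj (sl s) : ℝ) / Nj (sl s')) ^ 2) =
          (Nj (sk s) : ℝ) / Nj (sl s') *
            (Real.exp (-(13 * (sg s' : ℝ))) * ((Nj (sl s) : ℝ) / Nj (sl s'))) := by
        have := (hN (sl s)).ne'
        have := (hN (sl s')).ne'
        field_simp
      rw [h9]
      have h10 : 1 ≤ Real.exp (-(13 * (sg s' : ℝ))) * ((Nj (sl s) : ℝ) / Nj (sl s')) := by
        rw [Real.exp_neg, inv_mul_eq_div, le_div_iff₀ (Real.exp_pos _), one_mul,
          le_div_iff₀ (hN _)]
        exact h7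
      calc (Nj (sk (s' + 1)) : ℝ) / Nj (sl s') ≤ (Nj (sk s) : ℝ) / Nj (sl s') :=
            div_le_div_of_nonneg_right h6 (hN _).le
        _ = (Nj (sk s) : ℝ) / Nj (sl s') * 1 := by rw [mul_one]
        _ ≤ _ := mul_le_mul_of_nonneg_left h10 (div_nonneg (hN _).le (hN _).le)
    calc 2 * (4 * Real.sqrt (vhi s')) = 8 * Real.sqrt (vhi s') := by ring
      _ ≤ 8 * (Real.exp (-(13 / 2 * (sg s' : ℝ))) * (Real.sqrt (vlo s) * qq s s')) :=
        mul_le_mul_of_nonneg_left h3 (by norm_num)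
      _ = 8 * Real.exp (-(13 / 2 * (sg s' : ℝ))) * (Real.sqrt (vlo s) * qq s s') := by ring
  rw [mul_add]
  linarith

theorem sqrt_sl_le (s s' : ℕ) (h : sl s < sl s' + 4 * sg s') :
    Real.sqrt (sl s) ≤ 5 * sg s' := by
  have h1 := sl_le_sg s'
  have h2 : (sl s : ℝ) ≤ sl s' + 4 * sg s' := by exact_mod_cast h.le
  have h3 := sg_ge7 s'
  apply Real.sqrt_le_iff.mpr
  refine ⟨by positivity, ?_⟩
  nlinarith

/-- P3: outside of a small probability the number of pairs `q v + v' = M` is less than `30` -/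
theorem p3_all (K : Finset Key) (s s' : ℕ) (hss : s' + 2 ≤ s) (hK : keysOf s ⊆ K)
    (hK' : keysOf s' ⊆ K) :
    PrLe K (fun w => ∃ M : ℕ, 30 ≤
      ((VV s w ×ˢ VV s' w).filter (fun p => qq s s' * p.1 + p.2 = M)).card)
      (Real.exp (-(Real.sqrt (sl s))) / 8) := by
  have hl : sl s' ≤ sl s := sl_mono (by omega)
  rcases Nat.lt_or_ge (sl s) (sl s' + 4 * sg s') with hcase | hcase
  swap
  · refine prLe_of_empty ?_ (by positivity)
    rintro w ⟨M, hM⟩
    have h1 := p3_unique s s' (VV s w) (VV s' w) (fun v hv => ((mem_VV _ _ _).mp hv).1.2)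
      (vhi_le_qq s s' hcase) M
    omega
  · refine prLe_mono (p3 K s s' (by omega) hK hK' (qq s s') (qq_pos hl) (vlo_pos s) (vlo_pos s') 30
      (by norm_num)) (fun w hw => hw) ?_
    have hμ := p3_mean s s' hss
    set μ := 2 / Real.sqrt (vlo s) * (2 / Real.sqrt (vlo s') + 4 * Real.sqrt (vhi s') / qq s s')
      with hμdef
    have hμ0 : 0 ≤ μ := by positivity
    have hN := NjR_pos
    -- number of values
    have hcard : ((qq s s' * vhi s + vhi s' : ℕ) : ℝ) ≤ 2 * Real.exp (168 * (sg s' : ℝ)) := by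
      have hg2 := sg_le_two s s' hcase
      have h1 : ((qq s s' : ℕ) : ℝ) * vhi s ≤ (Nj (sk (s + 1)) : ℝ) / Nj (sl s') := by
        rw [qq_cast hl]
        calc (Nj (sl s) : ℝ) / Nj (sl s') * vhi s
            ≤ (Nj (sl s) : ℝ) / Nj (sl s') * ((Nj (sk (s + 1)) : ℝ) / Nj (sl s)) :=
              mul_le_mul_of_nonneg_left (vhi_le_div s) (div_nonneg (hN _).le (hN _).le)
          _ = (Nj (sk (s + 1)) : ℝ) / Nj (sl s') := by
              have := (hN (sl s)).ne'
              have := (hN (sl s')).ne'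
              field_simp
      have h2 : (vhi s' : ℝ) ≤ (Nj (sk (s + 1)) : ℝ) / Nj (sl s') := by
        refine (vhi_le_div s').trans (div_le_div_of_nonneg_right ?_ (hN _).le)
        exact_mod_cast Nj_mono (sk_strictMono.monotone (by omega))
      have h3 : (Nj (sk (s + 1)) : ℝ) / Nj (sl s') ≤ Real.exp (168 * (sg s' : ℝ)) := by
        rw [div_le_iff₀ (hN _)]
        have h4 : sl s' ≤ sk (s + 1) :=
          hl.trans ((sl_le_sk s).trans (sk_strictMono.monotone (by omega)))
        refine (Nj_le_exp h4).trans (mul_le_mul_of_nonneg_right ?_ (hN _).le)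
        apply Real.exp_le_exp.mpr
        have h5 := sk_succ_le s
        have h6 : sk (s + 1) ≤ sl s' + 12 * sg s' := by omega
        have h7 : (sk (s + 1) : ℝ) ≤ sl s' + 12 * sg s' := by exact_mod_cast h6
        linarith
      push_cast
      linarith
    have hfact : (12 : ℝ) ^ 30 ≤ (Nat.factorial 30 : ℕ) := by
      have : (12 : ℕ) ^ 30 ≤ Nat.factorial 30 := by decide
      exact_mod_cast this
    have hf0 : (0 : ℝ) < (Nat.factorial 30 : ℕ) := by exact_mod_cast Nat.factorial_pos 30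
    have hpow : μ ^ 30 / ((Nat.factorial 30 : ℕ) : ℝ) ≤ Real.exp (-(195 * (sg s' : ℝ))) := by
      rw [div_le_iff₀ hf0]
      calc μ ^ 30 ≤ (12 * Real.exp (-(13 / 2 * (sg s' : ℝ)))) ^ 30 :=
            pow_le_pow_left₀ hμ0 hμ 30
        _ = Real.exp (-(195 * (sg s' : ℝ))) * 12 ^ 30 := by
            rw [mul_pow, ← Real.exp_nat_mul, mul_comm]
            congr 2
            push_cast
            ring
        _ ≤ _ := mul_le_mul_of_nonneg_left hfact (Real.exp_pos _).le
    have hsqrt := sqrt_sl_le s s' hcase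
    have hg := sg_ge7 s'
    calc ((qq s s' * vhi s + vhi s' : ℕ) : ℝ) * (μ ^ 30 / ((Nat.factorial 30 : ℕ) : ℝ))
        ≤ (2 * Real.exp (168 * (sg s' : ℝ))) * Real.exp (-(195 * (sg s' : ℝ))) :=
          mul_le_mul hcard hpow (by positivity) (by positivity)
      _ = 2 * Real.exp (-(27 * (sg s' : ℝ))) := by
          rw [mul_assoc, ← Real.exp_add]
          congr 2
          ring
      _ ≤ Real.exp (-(Real.sqrt (sl s))) / 8 := by
          have h16 : (16 : ℝ) ≤ Real.exp 3 := by
            have h := Real.exp_one_gt_d9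
            have h1 : Real.exp 3 = Real.exp 1 ^ 3 := by
              rw [← Real.exp_nat_mul]
              norm_num
            rw [h1]
            have h2 : (2.7 : ℝ) ^ 3 ≤ Real.exp 1 ^ 3 :=
              pow_le_pow_left₀ (by norm_num) (by linarith) 3
            refine le_trans ?_ h2
            norm_num
          have h1 : Real.exp (-(27 * (sg s' : ℝ))) * 16 ≤ Real.exp (-(Real.sqrt (sl s))) := by
            calc Real.exp (-(27 * (sg s' : ℝ))) * 16 ≤ Real.exp (-(27 * (sg s' : ℝ))) * Real.exp 3 :=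
                  mul_le_mul_of_nonneg_left h16 (Real.exp_pos _).le
              _ = Real.exp (-(27 * (sg s' : ℝ)) + 3) := by rw [Real.exp_add]
              _ ≤ Real.exp (-(Real.sqrt (sl s))) := by
                  apply Real.exp_le_exp.mpr
                  linarith
          linarith

end Pool.Agent.Helper69.ET
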