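import Pool.Agent.Helper69.ET.Win
import Pool.Agent.Helper1.ET4.VV
import Pool.Agent.Helper72.T4.Mean

/-!
# T4': tail bounds for the window sets (P2, P3)
-/

namespace Pool.Agent.Helper69.ET

open Finset Pool.Agent.Helper5.ET Pool.Agent.Helper1.ET4

theorem dens_le (v : ℕ) (hv : 1 ≤ v) : ((2 : ℝ) ^ lev v)⁻¹ ≤ 2 * (1 / Real.sqrt v) := by
  have h1 : (v : ℝ) ≤ ((2 : ℝ) ^ (lev v + 1)) ^ 2 := by
    have h2 := (lev_spec v (by omega)).2.le
    have h3 : (4 : ℕ) ^ (lev v + 1) = (2 ^ (lev v + 1)) ^ 2 := by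
      rw [← pow_mul, mul_comm, pow_mul]
      norm_num
    rw [h3] at h2
    exact_mod_cast h2
  have h4 : Real.sqrt v ≤ 2 ^ (lev v + 1) := by
    rw [Real.sqrt_le_left (by positivity)]
    exact h1
  have h5 : 0 < Real.sqrt v := Real.sqrt_pos.mpr (by exact_mod_cast hv)
  rw [mul_one_div, inv_eq_one_div, div_le_div_iff₀ (by positivity) h5, one_mul]
  calc Real.sqrt v ≤ 2 ^ (lev v + 1) := h4
    _ = 2 * 2 ^ lev v := by ring

/-- mean number of elements in a residue class -/
theorem mean_class (s Q ρ : ℕ) (hQ : 0 < Q) (hlo : 0 < vlo s) :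
    ∑ v ∈ (Ico (vlo s) (vhi s)).filter (fun v => v % Q = ρ), ((2 : ℝ) ^ lev v)⁻¹ ≤
      2 / Real.sqrt (vlo s) + 4 * Real.sqrt (vhi s) / Q := by
  have h1 := Pool.Agent.Helper72.T4.sum_class
    ((Ico (vlo s) (vhi s)).filter (fun v => v % Q = ρ)) (vlo s) (vhi s) Q hlo hQ
    (by
      intro t ht
      rw [mem_filter, mem_Ico] at ht
      exact ⟨ht.1.1, ht.1.2.le⟩)
    (by
      intro t ht t' ht'
      rw [mem_filter] at ht ht'
      exact ht.2.trans ht'.2.symm)
  calc ∑ v ∈ (Ico (vlo s) (vhi s)).filter (fun v => v % Q = ρ), ((2 : ℝ) ^ lev v)⁻¹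
      ≤ ∑ v ∈ (Ico (vlo s) (vhi s)).filter (fun v => v % Q = ρ), 2 * (1 / Real.sqrt v) := by
        apply sum_le_sum
        intro v hv
        rw [mem_filter, mem_Ico] at hv
        exact dens_le v (by omega)
    _ = 2 * ∑ v ∈ (Ico (vlo s) (vhi s)).filter (fun v => v % Q = ρ), 1 / Real.sqrt v := by
        rw [mul_sum]
    _ ≤ 2 * (1 / Real.sqrt (vlo s) + 2 / Q * Real.sqrt (vhi s)) :=
        mul_le_mul_of_nonneg_left h1 (by norm_num)
    _ = 2 / Real.sqrt (vlo s) + 4 * Real.sqrt (vhi s) / Q := by ring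

/-- the tail bound `μ ^ T / T! ≤ exp (- T)` if `T ≥ e ^ 2 μ` -/
theorem pow_div_factorial_le (μ : ℝ) (T : ℕ) (hμ : 0 ≤ μ) (h : Real.exp 2 * μ ≤ T) :
    μ ^ T / (T.factorial : ℝ) ≤ Real.exp (-T) := by
  have hf : (0 : ℝ) < T.factorial := by exact_mod_cast T.factorial_pos
  have h1 : (T : ℝ) ^ T / (T.factorial : ℝ) ≤ Real.exp T :=
    Real.pow_div_factorial_le_exp (T : ℝ) (Nat.cast_nonneg T) T
  have h2 : (Real.exp 2 * μ) ^ T ≤ (T : ℝ) ^ T := pow_le_pow_left₀ (by positivity) h T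
  have h3 : Real.exp 2 ^ T * (μ ^ T / (T.factorial : ℝ)) ≤ Real.exp T := by
    calc Real.exp 2 ^ T * (μ ^ T / (T.factorial : ℝ)) = (Real.exp 2 * μ) ^ T / T.factorial := by
          rw [mul_pow]; ring
      _ ≤ (T : ℝ) ^ T / T.factorial := div_le_div_of_nonneg_right h2 hf.le
      _ ≤ Real.exp T := h1
  have h4 : Real.exp 2 ^ T = Real.exp (2 * T) := by
    rw [← Real.exp_nat_mul]
    ring_nf
  rw [h4] at h3
  have h5 : Real.exp (-(T : ℝ)) = Real.exp T / Real.exp (2 * T) := by
    rw [← Real.exp_sub]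
    ring_nf
  rw [h5, le_div_iff₀ (Real.exp_pos _), mul_comm]
  exact h3

/-- mean number of elements in a progression of residue classes -/
theorem mean_ap (s Q α E I : ℕ) (hQ : 0 < Q) (hlo : 0 < vlo s) :
    ∑ v ∈ (Ico (vlo s) (vhi s)).filter (fun v => ∃ i < I, v % Q = (α + E * i) % Q),
      ((2 : ℝ) ^ lev v)⁻¹ ≤
      I * (2 / Real.sqrt (vlo s) + 4 * Real.sqrt (vhi s) / Q) := by
  classical
  have h1 : ∑ v ∈ (Ico (vlo s) (vhi s)).filter (fun v => ∃ i < I, v % Q = (α + E * i) % Q),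
      ((2 : ℝ) ^ lev v)⁻¹ ≤
      ∑ v ∈ Ico (vlo s) (vhi s), ∑ i ∈ range I,
        (if v % Q = (α + E * i) % Q then ((2 : ℝ) ^ lev v)⁻¹ else 0) := by
    rw [sum_filter]
    apply sum_le_sum
    intro v _
    have hnn : ∀ i ∈ range I, (0 : ℝ) ≤
        (if v % Q = (α + E * i) % Q then ((2 : ℝ) ^ lev v)⁻¹ else 0) := by
      intro i _
      split_ifs <;> positivity
    split_ifs with h
    · obtain ⟨i, hi, hv⟩ := h
      refine le_trans (le_of_eq ?_) (single_le_sum hnn (mem_range.mpr hi))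
      rw [if_pos hv]
    · exact sum_nonneg hnn
  refine h1.trans ?_
  rw [sum_comm]
  calc ∑ i ∈ range I, ∑ v ∈ Ico (vlo s) (vhi s),
        (if v % Q = (α + E * i) % Q then ((2 : ℝ) ^ lev v)⁻¹ else 0)
      ≤ ∑ _i ∈ range I, (2 / Real.sqrt (vlo s) + 4 * Real.sqrt (vhi s) / Q) := by
        apply sum_le_sum
        intro i _
        rw [← sum_filter]
        exact mean_class s Q _ hQ hlo
    _ = I * (2 / Real.sqrt (vlo s) + 4 * Real.sqrt (vhi s) / Q) := by
        rw [sum_const, card_range, nsmul_eq_mul]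

/-- P2: elements of the window set in progressions of residue classes -/
theorem p2 (K : Finset Key) (s : ℕ) (hK : keysOf s ⊆ K) (Q : ℕ) (hQ : 0 < Q) (hlo : 0 < vlo s)
    (X : ℝ) (hX : Real.exp 2 ≤ X) :
    PrLe K (fun w => ∃ α E I : ℕ,
      X * (1 + (min I Q : ℕ) * (2 / Real.sqrt (vlo s) + 4 * Real.sqrt (vhi s) / Q)) <
        (((VV s w).filter (fun v => ∃ i < I, v % Q = (α + E * i) % Q)).card : ℝ))
      ((Q : ℝ) ^ 2 * (Q + 1) * Real.exp (-X)) := by
  classical
  set μ₀ : ℝ := 2 / Real.sqrt (vlo s) + 4 * Real.sqrt (vhi s) / Q with hμ₀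
  have hμ₀0 : 0 ≤ μ₀ := by positivity
  have hX0 : 0 < X := lt_of_lt_of_le (Real.exp_pos 2) hX
  set C : Finset (ℕ × ℕ × ℕ) := range Q ×ˢ (range Q ×ˢ range (Q + 1)) with hC
  set B : ℕ × ℕ × ℕ → Finset (ℕ × ℕ) := fun c =>
    ((Ico (vlo s) (vhi s)).filter (fun v => ∃ i < c.2.2, v % Q = (c.1 + c.2.1 * i) % Q)).image
      (fun v => (s, v)) with hB
  set T : ℕ × ℕ × ℕ → ℕ := fun c => ⌈X * (1 + c.2.2 * μ₀)⌉₊ with hT
  have h1 := prLe_union (K := K) C (fun c w => ∃ M ⊆ B c, M.card = T c ∧ ∀ q ∈ M, inV w q)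
    (fun c => (c.2.2 * μ₀) ^ T c / ((T c).factorial : ℝ)) (by
      intro c _
      apply prLe_inter
      · intro q hq
        rw [hB, mem_image] at hq
        obtain ⟨v, _, rfl⟩ := hq
        exact hK
      · rw [hB, sum_image (by
          intro a _ b _ h
          exact congrArg Prod.snd h)]
        exact mean_ap s Q c.1 c.2.1 c.2.2 hQ hlo)
  refine prLe_mono h1 ?_ ?_
  · rintro w ⟨α, E, I, hcard⟩
    refine ⟨(α % Q, E % Q, min I Q), ?_, ?_⟩
    · rw [hC, mem_product, mem_product, mem_range, mem_range, mem_range]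
      exact ⟨Nat.mod_lt _ hQ, Nat.mod_lt _ hQ, Nat.lt_succ_of_le (min_le_right _ _)⟩
    · have hmod : ∀ i, (α % Q + E % Q * i) % Q = (α + E * i) % Q := fun i =>
        (Nat.ModEq.add (Nat.mod_modEq α Q) ((Nat.mod_modEq E Q).mul_right i))
      have hper : ∀ v, (∃ i < I, v % Q = (α + E * i) % Q) →
          ∃ i < min I Q, v % Q = (α + E * i) % Q := by
        rintro v ⟨i, hi, hv⟩
        refine ⟨i % Q, lt_min ((Nat.mod_le _ _).trans_lt hi) (Nat.mod_lt _ hQ), ?_⟩
        rw [hv]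
        exact (Nat.ModEq.add_left α ((Nat.mod_modEq i Q).mul_left E)).symm
      have h2 : T (α % Q, E % Q, min I Q) ≤
          ((VV s w).filter (fun v => ∃ i < I, v % Q = (α + E * i) % Q)).card := by
        rw [hT]
        exact Nat.ceil_le.mpr hcard.le
      obtain ⟨M, hM, hMc⟩ := exists_subset_card_eq h2
      refine ⟨M.image (fun v => (s, v)), ?_, ?_, ?_⟩
      · rw [hB]
        apply image_subset_image
        intro v hv
        have h3 := mem_filter.mp (hM hv)
        rw [mem_filter, mem_Ico]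
        refine ⟨((mem_VV s w v).mp h3.1).1, ?_⟩
        obtain ⟨i, hi, hvi⟩ := hper v h3.2
        exact ⟨i, hi, by rw [hmod]; exact hvi⟩
      · rw [card_image_of_injective _ (fun a b h => congrArg Prod.snd h), hMc]
      · intro q hq
        rw [mem_image] at hq
        obtain ⟨v, hv, rfl⟩ := hq
        exact (mem_filter.mp (hM hv)).1
  · calc ∑ c ∈ C, (c.2.2 * μ₀) ^ T c / ((T c).factorial : ℝ) ≤ ∑ _c ∈ C, Real.exp (-X) := by
          apply sum_le_sum
          intro c _
          have hm : 0 ≤ (c.2.2 : ℝ) * μ₀ := by positivity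
          have h3 : X * (1 + c.2.2 * μ₀) ≤ (T c : ℝ) := Nat.le_ceil _
          refine (pow_div_factorial_le _ _ hm ?_).trans ?_
          · refine le_trans ?_ h3
            calc Real.exp 2 * (c.2.2 * μ₀) ≤ X * (c.2.2 * μ₀) :=
                  mul_le_mul_of_nonneg_right hX hm
              _ ≤ X * (1 + c.2.2 * μ₀) := by nlinarith
          · apply Real.exp_le_exp.mpr
            apply neg_le_neg
            refine le_trans ?_ h3
            nlinarith
      _ = (Q : ℝ) ^ 2 * (Q + 1) * Real.exp (-X) := by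
          rw [sum_const, nsmul_eq_mul, hC, card_product, card_product, card_range, card_range]
          push_cast
          ring

/-- pairs `(i, v)` with `v = α + E i` modulo `Q`, if `i` is determined modulo `D` -/
theorem card_pairs_le (V : Finset ℕ) (Q α E I D : ℕ)
    (hE : ∀ i j, i < I → j < I → (α + E * i) % Q = (α + E * j) % Q → i % D = j % D) :
    ((range I ×ˢ V).filter (fun p => p.2 % Q = (α + E * p.1) % Q)).card ≤
      (I / D + 1) * (V.filter (fun v => ∃ i < I, v % Q = (α + E * i) % Q)).card := by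
  classical
  have h1 : ((range I ×ˢ V).filter (fun p => p.2 % Q = (α + E * p.1) % Q)).card =
      ∑ v ∈ V.filter (fun v => ∃ i < I, v % Q = (α + E * i) % Q),
        (((range I ×ˢ V).filter (fun p => p.2 % Q = (α + E * p.1) % Q)).filter
          (fun p => p.2 = v)).card := by
    apply card_eq_sum_card_fiberwise
    intro p hp
    rw [mem_coe, mem_filter, mem_product, mem_range] at hp
    rw [mem_coe, mem_filter]
    exact ⟨hp.1.2, p.1, hp.1.1, hp.2⟩
  rw [h1, mul_comm]
  rw [← smul_eq_mul]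
  apply sum_le_card_nsmul
  intro v _
  have h2 : (((range I ×ˢ V).filter (fun p => p.2 % Q = (α + E * p.1) % Q)).filter
      (fun p => p.2 = v)).card ≤ (range (I / D + 1)).card := by
    apply card_le_card_of_injOn (fun p => p.1 / D)
    · intro p hp
      rw [mem_coe, mem_filter, mem_filter, mem_product, mem_range] at hp
      rw [mem_coe, mem_range]
      exact Nat.lt_succ_of_le (Nat.div_le_div_right hp.1.1.1.le)
    · intro p hp p' hp' h
      rw [mem_coe, mem_filter, mem_filter, mem_product, mem_range] at hp hp'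
      have h3 : p.1 % D = p'.1 % D := by
        apply hE _ _ hp.1.1.1 hp'.1.1.1
        rw [← hp.1.2, ← hp'.1.2, hp.2, hp'.2]
      have h4 : p.1 / D = p'.1 / D := h
      have h5 : p.1 = p'.1 := by
        rw [← Nat.div_add_mod p.1 D, ← Nat.div_add_mod p'.1 D, h3, h4]
      exact Prod.ext h5 (hp.2.trans hp'.2.symm)
  rwa [card_range] at h2

/-- P3: representations `q v + v' = M` by the window sets of two different states -/
theorem p3 (K : Finset Key) (s s' : ℕ) (hne : s ≠ s') (hK : keysOf s ⊆ K) (hK' : keysOf s' ⊆ K)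
    (q : ℕ) (hq : 0 < q) (hlo : 0 < vlo s) (hlo' : 0 < vlo s') (T : ℕ) (hT : 1 ≤ T) :
    PrLe K (fun w => ∃ M : ℕ, T ≤
      ((VV s w ×ˢ VV s' w).filter (fun p => q * p.1 + p.2 = M)).card)
      (((q * vhi s + vhi s' : ℕ) : ℝ) * ((2 / Real.sqrt (vlo s) *
        (2 / Real.sqrt (vlo s') + 4 * Real.sqrt (vhi s') / q)) ^ T / (T.factorial : ℝ))) := by
  classical
  set μ : ℝ := 2 / Real.sqrt (vlo s) *
    (2 / Real.sqrt (vlo s') + 4 * Real.sqrt (vhi s') / q) with hμ
  set E : ℕ → Finset (ℕ × ℕ) := fun M =>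
    (Ico (vlo s) (vhi s) ×ˢ Ico (vlo s') (vhi s')).filter (fun p => q * p.1 + p.2 = M) with hE
  set supp : ℕ × ℕ → Finset (ℕ × ℕ) := fun p => {(s, p.1), (s', p.2)} with hsupp
  have hinj : ∀ M, ∀ p ∈ E M, ∀ p' ∈ E M, p.2 = p'.2 → p = p' := by
    intro M p hp p' hp' h
    rw [hE, mem_filter] at hp hp'
    have h1 := hp.2
    have h2 := hp'.2
    have h3 : q * p.1 = q * p'.1 := by omega
    exact Prod.ext (Nat.eq_of_mul_eq_mul_left hq h3) h
  have hinj1 : ∀ M, ∀ p ∈ E M, ∀ p' ∈ E M, p.1 = p'.1 → p = p' := by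
    intro M p hp p' hp' h
    rw [hE, mem_filter] at hp hp'
    have h1 := hp.2
    have h2 := hp'.2
    rw [h] at h1
    exact Prod.ext h (by omega)
  have hmean : ∀ M, ∑ e ∈ E M, ∏ x ∈ supp e, ((2 : ℝ) ^ lev x.2)⁻¹ ≤ μ := by
    intro M
    have hlo1 : ∀ e ∈ E M, ∏ x ∈ supp e, ((2 : ℝ) ^ lev x.2)⁻¹ ≤
        2 / Real.sqrt (vlo s) * ((2 : ℝ) ^ lev e.2)⁻¹ := by
      intro e he
      rw [hE, mem_filter, mem_product, mem_Ico, mem_Ico] at he
      rw [hsupp, prod_pair (by
        intro h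
        exact hne (congrArg Prod.fst h))]
      apply mul_le_mul_of_nonneg_right _ (by positivity)
      refine (dens_le e.1 (by omega)).trans ?_
      rw [mul_one_div]
      apply div_le_div_of_nonneg_left (by norm_num)
        (Real.sqrt_pos.mpr (by exact_mod_cast hlo))
      exact Real.sqrt_le_sqrt (by exact_mod_cast he.1.1.1)
    calc ∑ e ∈ E M, ∏ x ∈ supp e, ((2 : ℝ) ^ lev x.2)⁻¹
        ≤ ∑ e ∈ E M, 2 / Real.sqrt (vlo s) * ((2 : ℝ) ^ lev e.2)⁻¹ := sum_le_sum hlo1
      _ = 2 / Real.sqrt (vlo s) * ∑ e ∈ E M, ((2 : ℝ) ^ lev e.2)⁻¹ := by rw [mul_sum]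
      _ ≤ μ := by
        apply mul_le_mul_of_nonneg_left _ (by positivity)
        refine le_trans ?_ (mean_class s' q (M % q) hq hlo')
        have h1 : ∑ e ∈ E M, ((2 : ℝ) ^ lev e.2)⁻¹ =
            ∑ v ∈ (E M).image Prod.snd, ((2 : ℝ) ^ lev v)⁻¹ := by
          rw [sum_image]
          intro a ha b hb h
          exact hinj M a ha b hb h
        rw [h1]
        apply sum_le_sum_of_subset_of_nonneg
        · intro v hv
          rw [mem_image] at hv
          obtain ⟨e, he, rfl⟩ := hv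
          rw [hE, mem_filter, mem_product] at he
          rw [mem_filter]
          refine ⟨he.1.2, ?_⟩
          rw [← he.2, Nat.mul_add_mod]
        · intro v _ _
          positivity
  have h1 := prLe_union (K := K) (range (q * vhi s + vhi s'))
    (fun M w => ∃ S ⊆ E M, S.card = T ∧ (S : Set (ℕ × ℕ)).PairwiseDisjoint supp ∧
      ∀ e ∈ S, ∀ x ∈ supp e, inV w x)
    (fun _ => μ ^ T / (T.factorial : ℝ)) (by
      intro M _
      apply prLe_matching K (E M) supp _ μ (hmean M) T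
      intro e _ x hx
      rw [hsupp, mem_insert, mem_singleton] at hx
      rcases hx with rfl | rfl
      · exact hK
      · exact hK')
  refine prLe_mono h1 ?_ (le_of_eq ?_)
  · rintro w ⟨M, hM⟩
    obtain ⟨S, hS, hSc⟩ := exists_subset_card_eq hM
    have hSE : S ⊆ E M := by
      intro p hp
      have h2 := mem_filter.mp (hS hp)
      rw [mem_product] at h2
      rw [hE, mem_filter, mem_product, mem_Ico, mem_Ico]
      exact ⟨⟨((mem_VV _ _ _).mp h2.1.1).1, ((mem_VV _ _ _).mp h2.1.2).1⟩, h2.2⟩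
    refine ⟨M, ?_, S, hSE, hSc, ?_, ?_⟩
    · have hne' : S.Nonempty := card_pos.mp (by omega)
      obtain ⟨p, hp⟩ := hne'
      have h2 := hSE hp
      rw [hE, mem_filter, mem_product, mem_Ico, mem_Ico] at h2
      rw [mem_range, ← h2.2]
      have h3 : q * p.1 ≤ q * vhi s := Nat.mul_le_mul_left _ h2.1.1.2.le
      omega
    · intro p hp p' hp' hpp
      rw [Function.onFun, hsupp, disjoint_left]
      intro x hx hx'
      rw [mem_insert, mem_singleton] at hx hx'
      apply hpp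
      rcases hx with rfl | rfl <;> rcases hx' with hx' | hx'
      · exact hinj1 M p (hSE hp) p' (hSE hp') (congrArg Prod.snd hx')
      · exact absurd (congrArg Prod.fst hx') hne
      · exact absurd (congrArg Prod.fst hx').symm hne
      · exact hinj M p (hSE hp) p' (hSE hp') (Prod.mk.inj hx').2
    · intro e he x hx
      have h2 := mem_filter.mp (hS he)
      rw [mem_product] at h2
      rw [hsupp, mem_insert, mem_singleton] at hx
      rcases hx with rfl | rfl
      · exact h2.1.1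
      · exact h2.1.2
  · rw [sum_const, card_range, nsmul_eq_mul]

end Pool.Agent.Helper69.ET
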