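import Pool.Agent.Helper5.ET.Defs

/-!
# T4': the window sets have few elements in short intervals
-/

namespace Pool.Agent.Helper69.ET

open Finset Pool.Agent.Helper5.ET

theorem lev_spec (v : ℕ) (hv : v ≠ 0) : 4 ^ lev v ≤ v ∧ v < 4 ^ (lev v + 1) :=
  ⟨Nat.pow_log_le_self 4 hv, Nat.lt_pow_succ_log_self (by norm_num) v⟩

theorem lev_mono {u v : ℕ} (h : u ≤ v) : lev u ≤ lev v := Nat.log_mono_right h

/-- two numbers in one aligned block of length `2 ^ j` with `j ≤ lev u`, `j ≤ lev v` have the same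
level -/
theorem lev_eq_of_div (u v j : ℕ) (hu : j ≤ lev u) (hv : j ≤ lev v)
    (h : u / 2 ^ j = v / 2 ^ j) : lev u = lev v := by
  have key : ∀ u v : ℕ, j ≤ lev u → u / 2 ^ j = v / 2 ^ j → lev u ≤ lev v := by
    intro u v hu h
    rcases Nat.eq_zero_or_pos u with h0 | h0
    · subst h0
      simp [lev]
    · have h1 := (lev_spec u h0.ne').1
      have h2 : (2 : ℕ) ^ j ∣ 4 ^ lev u := by
        have : (4 : ℕ) ^ lev u = 2 ^ (2 * lev u) := by
          rw [pow_mul]
          norm_num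
        rw [this]
        exact pow_dvd_pow 2 (by omega)
      have h3 : 4 ^ lev u / 2 ^ j ≤ v / 2 ^ j := h ▸ Nat.div_le_div_right h1
      have h4 : 4 ^ lev u ≤ v := by
        calc 4 ^ lev u = 4 ^ lev u / 2 ^ j * 2 ^ j := (Nat.div_mul_cancel h2).symm
          _ ≤ v / 2 ^ j * 2 ^ j := Nat.mul_le_mul_right _ h3
          _ ≤ v := Nat.div_mul_le_self _ _
      have h5 : lev (4 ^ lev u) ≤ lev v := lev_mono h4
      rwa [lev, Nat.log_pow (by norm_num)] at h5
  exact le_antisymm (key u v hu h) (key v u hv h.symm)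

theorem mem_VV (s : ℕ) (w : Key → ℕ) (v : ℕ) :
    v ∈ VV s w ↔ (vlo s ≤ v ∧ v < vhi s) ∧ v % 2 ^ lev v = w (bkey s v) := by
  rw [VV, mem_filter, mem_Ico]

/-- the window set has at most one element in each block -/
theorem VV_block (s : ℕ) (w : Key → ℕ) {u v : ℕ} (hu : u ∈ VV s w) (hv : v ∈ VV s w)
    (h : bkey s u = bkey s v) : u = v := by
  rw [mem_VV] at hu hv
  have h1 : lev u = lev v ∧ u / 2 ^ lev u = v / 2 ^ lev v := by
    have h2 := congrArg (fun k : Key => k.2.2) h
    simp only [bkey] at h2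
    exact ⟨congrFun h2 0, congrFun h2 1⟩
  have h3 : u % 2 ^ lev u = v % 2 ^ lev v := by rw [hu.2, hv.2, h]
  rw [← Nat.div_add_mod u (2 ^ lev u), ← Nat.div_add_mod v (2 ^ lev v), h1.2, h3, h1.1]

/-- division by the smallest block length is injective on the window set -/
theorem VV_injOn (s : ℕ) (w : Key → ℕ) :
    Set.InjOn (fun v => v / 2 ^ lev (vlo s)) (VV s w : Set ℕ) := by
  intro u hu v hv h
  simp only [mem_coe] at hu hv
  replace h : u / 2 ^ lev (vlo s) = v / 2 ^ lev (vlo s) := h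
  have hu' := (mem_VV s w u).mp hu
  have hv' := (mem_VV s w v).mp hv
  have h1 := lev_eq_of_div u v _ (lev_mono hu'.1.1) (lev_mono hv'.1.1) h
  apply VV_block s w hu hv
  have h2 : u / 2 ^ lev u = v / 2 ^ lev v := by
    have h3 : ∀ x : ℕ, lev (vlo s) ≤ lev x → x / 2 ^ lev x =
        x / 2 ^ lev (vlo s) / 2 ^ (lev x - lev (vlo s)) := by
      intro x hx
      rw [Nat.div_div_eq_div_mul, ← pow_add]
      congr 2
      omega
    rw [h3 u (lev_mono hu'.1.1), h3 v (lev_mono hv'.1.1), h, h1]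
  simp only [bkey, h2]
  rw [h1]

/-- an interval of length `L` contains at most `L / 2 ^ lev (vlo s) + 2` elements of the window
set -/
theorem card_VV_window (s : ℕ) (w : Key → ℕ) (y L : ℕ) :
    ((VV s w).filter (fun v => y ≤ v ∧ v < y + L)).card ≤ L / 2 ^ lev (vlo s) + 2 := by
  set B := 2 ^ lev (vlo s) with hB
  have hB0 : 0 < B := by positivity
  have h1 : ((VV s w).filter (fun v => y ≤ v ∧ v < y + L)).card ≤
      (Icc (y / B) ((y + L) / B)).card := by
    apply card_le_card_of_injOn (fun v => v / B)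
    · intro v hv
      rw [mem_coe, mem_filter] at hv
      rw [mem_coe, mem_Icc]
      exact ⟨Nat.div_le_div_right hv.2.1, Nat.div_le_div_right hv.2.2.le⟩
    · intro u hu v hv h
      rw [mem_coe, mem_filter] at hu hv
      exact VV_injOn s w hu.1 hv.1 h
  rw [Nat.card_Icc] at h1
  have h0 : y / B ≤ (y + L) / B := Nat.div_le_div_right (Nat.le_add_right _ _)
  have h2 : (y + L) / B ≤ y / B + L / B + 1 := by
    have h3 := Nat.div_add_mod y B
    have h4 := Nat.div_add_mod L B
    have h5 := Nat.mod_lt y hB0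
    have h6 := Nat.mod_lt L hB0
    rw [Nat.div_le_iff_le_mul_add_pred hB0]
    nlinarith [Nat.sub_add_cancel (Nat.succ_le_of_lt hB0)]
  omega

end Pool.Agent.Helper69.ET
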